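import Pool.Agent.H816R2.KM2N

/-!
A Steiner system `S(1975,7,2)`: a difference family over `ℤ_5 × ℤ_5 × ℤ_79`, invariant under a
group of multipliers of order 6.
-/

set_option autoImplicit false

namespace Pool.Agent.TH523.T2

open Pool.Agent.H816R2.KM2

def full1975 : List (List ℕ) :=
  [[0, 1, 928, 1381, 1395, 1409, 1422],
   [0, 25, 587, 593, 725, 825, 1775],
   [0, 26, 417, 685, 1271, 1679, 1780],
   [0, 29, 413, 690, 1259, 1676, 1795],
   [0, 40, 201, 598, 661, 1143, 1392],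
   [0, 50, 86, 94, 425, 900, 1425],
   [0, 66, 780, 1026, 1093, 1159, 1861],
   [0, 72, 118, 326, 777, 1156, 1561],
   [0, 73, 209, 351, 703, 1086, 1210],
   [0, 75, 1332, 1348, 1605, 1620, 1700],
   [0, 76, 897, 1136, 1329, 1495, 1517],
   [0, 79, 883, 1144, 1326, 1480, 1513],
   [0, 88, 680, 704, 969, 1076, 1258],
   [0, 92, 695, 701, 961, 1079, 1272],
   [0, 98, 751, 988, 1032, 1153, 1290],
   [0, 101, 280, 1283, 1589, 1848, 1920],
   [0, 108, 349, 1111, 1251, 1553, 1618],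
   [0, 110, 1046, 1151, 1483, 1520, 1937],
   [0, 125, 176, 179, 775, 1350, 1650],
   [0, 126, 911, 968, 1107, 1260, 1613],
   [0, 145, 468, 476, 914, 971, 1061],
   [0, 150, 400, 1263, 1267, 1664, 1666],
   [0, 151, 314, 803, 1413, 1431, 1799],
   [0, 174, 358, 693, 1478, 1586, 1701],
   [0, 175, 675, 1109, 1121, 1785, 1790],
   [0, 196, 1198, 1492, 1733, 1806, 1876],
   [0, 207, 286, 452, 1126, 1630, 1794],
   [0, 226, 773, 1227, 1462, 1693, 1896],
   [0, 230, 285, 922, 1049, 1307, 1426],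
   [0, 240, 464, 656, 752, 976, 1509],
   [0, 243, 299, 403, 536, 1226, 1308],
   [0, 251, 868, 878, 1067, 1445, 1507],
   [0, 259, 317, 376, 1099, 1205, 1269],
   [0, 276, 432, 648, 963, 1753, 1865],
   [0, 283, 315, 526, 611, 714, 1288],
   [0, 303, 363, 726, 848, 1057, 1840],
   [0, 305, 970, 1014, 1148, 1201, 1758],
   [0, 342, 371, 781, 833, 926, 1873],
   [0, 396, 791, 1202, 1255, 1314, 1526],
   [0, 426, 535, 609, 629, 856, 1193],
   [0, 429, 540, 621, 626, 874, 1187],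
   [0, 511, 1101, 1133, 1490, 1689, 1838],
   [0, 551, 796, 841, 1459, 1582, 1874],
   [0, 573, 776, 1096, 1731, 1792, 1908],
   [0, 576, 1289, 1556, 1599, 1813, 1878],
   [0, 676, 1197, 1338, 1527, 1745, 1816],
   [0, 933, 1051, 1389, 1405, 1845, 1898]]

theorem ex1975 : ∃ 𝓑 : Set (Finset (Fin 1975)), IsS2 (Fin 1975) 7 𝓑 :=
  of_coded (codedP 5 (codedP 5 (codedZ 79))) 7 1 0 1975 rfl full1975 []
    (by decide +kernel) (by decide +kernel) (by decide +kernel) (by decide +kernel)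
    (by decide +kernel) (by decide +kernel)

end Pool.Agent.TH523.T2
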