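import Pool.Agent.H816R2.KM2N

/-!
A Steiner system `S(289,9,2)`: a difference family over `ℤ_17 × ℤ_17` whose four base blocks are
fixed by a multiplier of order 3 of the field with 289 elements.
-/

set_option autoImplicit false

namespace Pool.Agent.TH523.T2

open Pool.Agent.H816R2.KM2

def full289 : List (List ℕ) :=
  [[1, 39, 41, 59, 68, 98, 166, 199, 264],
   [4, 35, 52, 139, 147, 155, 184, 219, 272],
   [6, 88, 150, 182, 201, 206, 207, 212, 261],
   [7, 63, 116, 160, 175, 246, 250, 253, 260]]

theorem ex289 : ∃ 𝓑 : Set (Finset (Fin 289)), IsS2 (Fin 289) 9 𝓑 :=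
  of_coded (codedP 17 (codedZ 17)) 9 1 0 289 rfl full289 []
    (by decide +kernel) (by decide +kernel) (by decide +kernel) (by decide +kernel)
    (by decide +kernel) (by decide +kernel)

end Pool.Agent.TH523.T2
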